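import Mathlib

/-!
# A Bernstein inequality for polynomials bounded on the complex torus

`bern`: if `|sum_S c_S z^S| <= 1` on the torus and `|S ∩ J| <= d` on the support, then
`sum_{j in J} |sum_{S contains j} c_S z^S| <= 4 d` at every point of the torus.
-/

set_option linter.unusedVariables false

open Finset Complex

namespace Pool.Agent.TAA

/-- Counting lemma, inner sum. -/
theorem bern_inner (d : ℕ) (a : ℤ) (j : ℕ) :
    (∑ l ∈ range d, (if a + j - l = 0 then (1 : ℤ) else 0)) =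
      if 0 ≤ a + j ∧ a + j < d then 1 else 0 := by
  split_ifs with h
  · obtain ⟨h0, h1⟩ := h
    rw [sum_eq_single (a + j).toNat]
    · rw [if_pos]
      rw [Int.toNat_of_nonneg h0]; ring
    · intro b _ hb
      rw [if_neg]
      intro h'
      apply hb
      omega
    · intro hb
      exfalso
      apply hb
      rw [mem_range]
      omega
  · apply sum_eq_zero
    intro l hl
    rw [mem_range] at hl
    rw [if_neg]
    omega

theorem bern_outer1 (d : ℕ) (k : ℕ) (hk : k ≤ d) :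
    (∑ j ∈ range d, (if 0 ≤ (k : ℤ) - d + j ∧ (k : ℤ) - d + j < d then (1 : ℤ) else 0)) = k := by
  have h : ∀ j ∈ range d, (if 0 ≤ (k : ℤ) - d + j ∧ (k : ℤ) - d + j < d then (1 : ℤ) else 0) =
      if j ∈ Ico (d - k) d then 1 else 0 := by
    intro j hj
    rw [mem_range] at hj
    have : (0 ≤ (k : ℤ) - d + j ∧ (k : ℤ) - d + j < d) ↔ j ∈ Ico (d - k) d := by
      rw [mem_Ico]; omega
    simp only [this]
  rw [sum_congr rfl h, ← sum_filter]
  have h2 : (range d).filter (fun j => j ∈ Ico (d - k) d) = Ico (d - k) d := by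
    ext j; simp only [mem_filter, mem_range, mem_Ico]; omega
  rw [h2]
  simp only [sum_const, Nat.card_Ico, nsmul_eq_mul, mul_one]
  omega

theorem bern_outer2 (d : ℕ) (k : ℕ) (hk : k ≤ d) :
    (∑ j ∈ range d, (if 0 ≤ (k : ℤ) + d + j ∧ (k : ℤ) + d + j < d then (1 : ℤ) else 0)) = 0 := by
  apply sum_eq_zero
  intro j _
  rw [if_neg]
  omega

theorem bern_outer3 (d : ℕ) (k : ℕ) (hk : k ≤ d) :
    (∑ j ∈ range d, (if 0 ≤ -(k : ℤ) + d + j ∧ -(k : ℤ) + d + j < d then (1 : ℤ) else 0)) = k := by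
  have h : ∀ j ∈ range d, (if 0 ≤ -(k : ℤ) + d + j ∧ -(k : ℤ) + d + j < d then (1 : ℤ) else 0) =
      if j ∈ range k then 1 else 0 := by
    intro j hj
    rw [mem_range] at hj
    have : (0 ≤ -(k : ℤ) + d + j ∧ -(k : ℤ) + d + j < d) ↔ j ∈ range k := by
      rw [mem_range]; omega
    simp only [this]
  rw [sum_congr rfl h, ← sum_filter]
  have h2 : (range d).filter (fun j => j ∈ range k) = range k := by
    ext j; simp only [mem_filter, mem_range]; omega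
  rw [h2]
  simp

theorem bern_outer4 (d : ℕ) (k : ℕ) (hk : k ≤ d) :
    (∑ j ∈ range d, (if 0 ≤ -(k : ℤ) - d + j ∧ -(k : ℤ) - d + j < d then (1 : ℤ) else 0)) = 0 := by
  apply sum_eq_zero
  intro j hj
  rw [mem_range] at hj
  rw [if_neg]
  omega

/-- Counting lemma. -/
theorem bern_count (d : ℕ) (k : ℤ) (hk : |k| ≤ d) :
    (∑ j ∈ range d, ∑ l ∈ range d, (if k - d + j - l = 0 then (1 : ℤ) else 0))
      - (∑ j ∈ range d, ∑ l ∈ range d, (if k + d + j - l = 0 then (1 : ℤ) else 0)) = k := by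
  have h1 : ∀ j ∈ range d, (∑ l ∈ range d, (if k - d + j - l = 0 then (1 : ℤ) else 0)) =
      if 0 ≤ k - d + j ∧ k - d + j < d then 1 else 0 := fun j _ => bern_inner d (k - d) j
  have h2 : ∀ j ∈ range d, (∑ l ∈ range d, (if k + d + j - l = 0 then (1 : ℤ) else 0)) =
      if 0 ≤ k + d + j ∧ k + d + j < d then 1 else 0 := fun j _ => bern_inner d (k + d) j
  rw [sum_congr rfl h1, sum_congr rfl h2]
  rcases le_or_gt 0 k with h | h
  · obtain ⟨k, rfl⟩ := Int.eq_ofNat_of_zero_le h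
    have hk' : k ≤ d := by
      rw [abs_of_nonneg h] at hk; exact_mod_cast hk
    rw [bern_outer1 d k hk', bern_outer2 d k hk']; ring
  · obtain ⟨k', hk'⟩ := Int.eq_ofNat_of_zero_le (a := -k) (by omega)
    obtain rfl : k = -(k' : ℤ) := by omega
    have hk2 : k' ≤ d := by
      rw [abs_neg, abs_of_nonneg (by positivity)] at hk; exact_mod_cast hk
    rw [bern_outer3 d k' hk2, bern_outer4 d k' hk2]; ring

/-- Orthogonality of characters of the `N`-th roots of unity. -/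
theorem bern_orth {N : ℕ} (hN : 0 < N) {ω : ℂ} (hω : IsPrimitiveRoot ω N) (t : ℤ) :
    ∑ m ∈ range N, (ω ^ m) ^ t = if (N : ℤ) ∣ t then (N : ℂ) else 0 := by
  have h0 : ω ≠ 0 := hω.ne_zero hN.ne'
  have h1 : ∀ m ∈ range N, (ω ^ m) ^ t = (ω ^ t) ^ m := by
    intro m _
    rw [← zpow_natCast, ← zpow_natCast, ← zpow_mul, ← zpow_mul, mul_comm]
  rw [sum_congr rfl h1]
  split_ifs with h
  · have : ω ^ t = 1 := (hω.zpow_eq_one_iff_dvd t).2 h
    simp [this]
  · have hx : ω ^ t ≠ 1 := fun h' => h ((hω.zpow_eq_one_iff_dvd t).1 h')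
    have hxN : (ω ^ t) ^ N = 1 := by
      rw [← zpow_natCast, ← zpow_mul, mul_comm, zpow_mul, zpow_natCast, hω.pow_eq_one, one_zpow]
    have := geom_sum_eq hx N
    rw [this, hxN]
    simp

theorem bern_orth_small {N : ℕ} (hN : 0 < N) {ω : ℂ} (hω : IsPrimitiveRoot ω N) (t : ℤ)
    (ht : |t| < N) :
    ∑ m ∈ range N, (ω ^ m) ^ t = (N : ℂ) * ((if t = 0 then (1 : ℤ) else 0 : ℤ) : ℂ) := by
  rw [bern_orth hN hω t]
  by_cases h : t = 0
  · simp [h]
  · rw [if_neg h, if_neg]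
    · simp
    · intro h'
      exact h (Int.eq_zero_of_abs_lt_dvd h' ht)

/-- The kernel. -/
theorem bern_ker {N d : ℕ} (hd : 0 < d) (hN : 4 * d = N) {ω : ℂ} (hω : IsPrimitiveRoot ω N) (k : ℤ)
    (hk : |k| ≤ d) :
    ∑ m ∈ range N, (ω ^ m) ^ k * (((ω ^ m) ^ (-(d : ℤ)) - (ω ^ m) ^ (d : ℤ)) *
      ((∑ j ∈ range d, (ω ^ m) ^ (j : ℤ)) * (∑ l ∈ range d, (ω ^ m) ^ (-(l : ℤ))))) = N * k := by
  have hNpos : 0 < N := by omega
  have h0 : ω ≠ 0 := hω.ne_zero hNpos.ne'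
  have hb := abs_le.1 hk
  have h1 : ∀ m ∈ range N, (ω ^ m) ^ k * (((ω ^ m) ^ (-(d : ℤ)) - (ω ^ m) ^ (d : ℤ)) *
      ((∑ j ∈ range d, (ω ^ m) ^ (j : ℤ)) * (∑ l ∈ range d, (ω ^ m) ^ (-(l : ℤ))))) =
      ∑ j ∈ range d, ∑ l ∈ range d, ((ω ^ m) ^ (k - d + j - l) - (ω ^ m) ^ (k + d + j - l)) := by
    intro m _
    have hm : ω ^ m ≠ 0 := pow_ne_zero _ h0
    rw [sum_mul_sum, mul_sum, mul_sum]
    refine sum_congr rfl fun j _ => ?_
    rw [mul_sum, mul_sum]
    refine sum_congr rfl fun l _ => ?_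
    have e1 : (ω ^ m) ^ (k - d + j - l) =
        (ω ^ m) ^ k * (ω ^ m) ^ (-(d : ℤ)) * (ω ^ m) ^ (j : ℤ) * (ω ^ m) ^ (-(l : ℤ)) := by
      rw [← zpow_add₀ hm, ← zpow_add₀ hm, ← zpow_add₀ hm]; congr 1
    have e2 : (ω ^ m) ^ (k + d + j - l) =
        (ω ^ m) ^ k * (ω ^ m) ^ (d : ℤ) * (ω ^ m) ^ (j : ℤ) * (ω ^ m) ^ (-(l : ℤ)) := by
      rw [← zpow_add₀ hm, ← zpow_add₀ hm, ← zpow_add₀ hm]; congr 1
    rw [e1, e2]; ring
  rw [sum_congr rfl h1, sum_comm]
  have h2 : ∀ j ∈ range d, ∑ m ∈ range N, ∑ l ∈ range d,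
      ((ω ^ m) ^ (k - d + j - l) - (ω ^ m) ^ (k + d + j - l)) =
      ∑ l ∈ range d, (N : ℂ) * (((if k - d + j - l = 0 then (1 : ℤ) else 0) -
        (if k + d + j - l = 0 then (1 : ℤ) else 0) : ℤ) : ℂ) := by
    intro j hj
    rw [mem_range] at hj
    rw [sum_comm]
    refine sum_congr rfl fun l hl => ?_
    rw [mem_range] at hl
    rw [sum_sub_distrib, bern_orth_small hNpos hω, bern_orth_small hNpos hω]
    · push_cast; ring
    · rw [abs_lt]; constructor <;> omega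
    · rw [abs_lt]; constructor <;> omega
  rw [sum_congr rfl h2]
  have h3 := bern_count d k hk
  rw [← sum_sub_distrib] at h3
  have h4 : ∀ j ∈ range d, ((∑ l ∈ range d, (if k - d + j - l = 0 then (1 : ℤ) else 0)) -
      (∑ l ∈ range d, (if k + d + j - l = 0 then (1 : ℤ) else 0))) =
      ∑ l ∈ range d, ((if k - d + j - l = 0 then (1 : ℤ) else 0) -
        (if k + d + j - l = 0 then (1 : ℤ) else 0)) := fun j _ => by rw [sum_sub_distrib]
  rw [sum_congr rfl h4] at h3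
  simp_rw [← mul_sum]
  rw [← Int.cast_inj (α := ℂ)] at h3
  rw [← h3]
  push_cast
  rfl

/-- The `L^2` norm of the Dirichlet kernel. -/
theorem bern_dir {N d : ℕ} (hd : 0 < d) (hN : 4 * d = N) {ω : ℂ} (hω : IsPrimitiveRoot ω N) :
    ∑ m ∈ range N, ‖∑ j ∈ range d, (ω ^ m) ^ (j : ℤ)‖ ^ 2 = N * d := by
  have hNpos : 0 < N := by omega
  have h0 : ω ≠ 0 := hω.ne_zero hNpos.ne'
  have hn1 : ‖ω‖ = 1 := hω.norm'_eq_one hNpos.ne'
  have h1 : ∀ m ∈ range N, ((‖∑ j ∈ range d, (ω ^ m) ^ (j : ℤ)‖ ^ 2 : ℝ) : ℂ) =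
      ∑ j ∈ range d, ∑ l ∈ range d, (ω ^ m) ^ ((j : ℤ) - l) := by
    intro m _
    have hm : ω ^ m ≠ 0 := pow_ne_zero _ h0
    have hmn : ‖ω ^ m‖ = 1 := by rw [norm_pow, hn1, one_pow]
    have hinv : (starRingEnd ℂ) (ω ^ m) = (ω ^ m)⁻¹ := by
      rw [Complex.inv_def, Complex.normSq_eq_norm_sq, hmn]; simp
    rw [Complex.ofReal_pow, ← Complex.mul_conj', map_sum, sum_mul_sum]
    refine sum_congr rfl fun j _ => sum_congr rfl fun l _ => ?_
    rw [map_zpow₀, hinv, inv_zpow', ← zpow_add₀ hm]; congr 1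
  have h2 : ((∑ m ∈ range N, ‖∑ j ∈ range d, (ω ^ m) ^ (j : ℤ)‖ ^ 2 : ℝ) : ℂ) = ((N * d : ℝ) : ℂ) := by
    rw [Complex.ofReal_sum, sum_congr rfl h1, sum_comm]
    have h3 : ∀ j ∈ range d, ∑ m ∈ range N, ∑ l ∈ range d, (ω ^ m) ^ ((j : ℤ) - l) = (N : ℂ) := by
      intro j hj
      rw [mem_range] at hj
      rw [sum_comm]
      have h4 : ∀ l ∈ range d, ∑ m ∈ range N, (ω ^ m) ^ ((j : ℤ) - l) =
          if j = l then (N : ℂ) else 0 := by
        intro l hl
        rw [mem_range] at hl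
        rw [bern_orth_small hNpos hω _ (by rw [abs_lt]; constructor <;> omega)]
        by_cases h : j = l
        · simp [h]
        · rw [if_neg h, if_neg (by omega)]; simp
      rw [sum_congr rfl h4, sum_ite_eq, if_pos (mem_range.2 hj)]
    rw [sum_congr rfl h3]
    simp [mul_comm]
  exact_mod_cast h2

/-- Bernstein's inequality at `1` for exponential sums with integer frequencies in `[-d, d]`. -/
theorem bern_one {ι : Type*} (s : Finset ι) (b : ι → ℂ) (k : ι → ℤ) (d : ℕ)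
    (hk : ∀ i ∈ s, b i ≠ 0 → |k i| ≤ d)
    (hbd : ∀ ζ : ℂ, ‖ζ‖ = 1 → ‖∑ i ∈ s, b i * ζ ^ (k i)‖ ≤ 1) :
    ‖∑ i ∈ s, b i * k i‖ ≤ 2 * d := by
  rcases Nat.eq_zero_or_pos d with h0 | hd
  · subst h0
    have : ∑ i ∈ s, b i * k i = 0 := by
      apply sum_eq_zero
      intro i hi
      by_cases hb : b i = 0
      · simp [hb]
      · have := hk i hi hb
        have : k i = 0 := by
          rw [Nat.cast_zero] at this
          exact abs_eq_zero.1 (le_antisymm this (abs_nonneg _))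
        simp [this]
    rw [this]; simp
  set N := 4 * d with hN
  have hNpos : 0 < N := by omega
  have hω := Complex.isPrimitiveRoot_exp N hNpos.ne'
  set ω := Complex.exp (2 * Real.pi * Complex.I / N) with hωdef
  have h0 : ω ≠ 0 := hω.ne_zero hNpos.ne'
  have hn1 : ‖ω‖ = 1 := hω.norm'_eq_one hNpos.ne'
  set K : ℕ → ℂ := fun m => ((ω ^ m) ^ (-(d : ℤ)) - (ω ^ m) ^ (d : ℤ)) *
      ((∑ j ∈ range d, (ω ^ m) ^ (j : ℤ)) * (∑ l ∈ range d, (ω ^ m) ^ (-(l : ℤ)))) with hK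
  have e1 : (N : ℂ) * ∑ i ∈ s, b i * k i =
      ∑ m ∈ range N, (∑ i ∈ s, b i * (ω ^ m) ^ (k i)) * K m := by
    simp_rw [sum_mul]
    rw [sum_comm, mul_sum]
    refine sum_congr rfl fun i hi => ?_
    by_cases hb : b i = 0
    · simp [hb]
    · have := bern_ker hd hN.symm hω (k i) (hk i hi hb)
      simp_rw [mul_assoc]
      rw [← mul_sum, this]; ring
  have e2 : ∀ m ∈ range N, ‖K m‖ ≤ 2 * ‖∑ j ∈ range d, (ω ^ m) ^ (j : ℤ)‖ ^ 2 := by
    intro m _
    have hmn : ‖ω ^ m‖ = 1 := by rw [norm_pow, hn1, one_pow]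
    have hinv : (starRingEnd ℂ) (ω ^ m) = (ω ^ m)⁻¹ := by
      rw [Complex.inv_def, Complex.normSq_eq_norm_sq, hmn]; simp
    have e3 : (∑ l ∈ range d, (ω ^ m) ^ (-(l : ℤ))) =
        (starRingEnd ℂ) (∑ j ∈ range d, (ω ^ m) ^ (j : ℤ)) := by
      rw [map_sum]
      refine sum_congr rfl fun j _ => ?_
      rw [map_zpow₀, hinv, inv_zpow']
    simp only [hK]
    rw [norm_mul, norm_mul, e3, Complex.norm_conj, ← sq]
    refine mul_le_mul_of_nonneg_right ?_ (by positivity)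
    refine (norm_sub_le _ _).trans ?_
    rw [norm_zpow, norm_zpow, hmn, one_zpow, one_zpow]; norm_num
  have e3 : ‖(N : ℂ) * ∑ i ∈ s, b i * k i‖ ≤ N * (2 * d) := by
    rw [e1]
    refine (norm_sum_le _ _).trans ?_
    have : ∀ m ∈ range N, ‖(∑ i ∈ s, b i * (ω ^ m) ^ (k i)) * K m‖ ≤
        2 * ‖∑ j ∈ range d, (ω ^ m) ^ (j : ℤ)‖ ^ 2 := by
      intro m hm
      rw [norm_mul]
      have h := hbd (ω ^ m) (by rw [norm_pow, hn1, one_pow])
      calc _ ≤ 1 * ‖K m‖ := mul_le_mul_of_nonneg_right h (norm_nonneg _)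
        _ ≤ _ := by rw [one_mul]; exact e2 m hm
    refine (sum_le_sum this).trans ?_
    rw [← mul_sum, bern_dir hd hN.symm hω]
    apply le_of_eq; ring
  rw [norm_mul, Complex.norm_natCast] at e3
  exact le_of_mul_le_mul_left e3 (by exact_mod_cast hNpos)

variable {I : Type*} [Fintype I] [DecidableEq I]

/-- The signed version. -/
theorem bern_signed (c : Finset I → ℂ) (J : Finset I) (d : ℕ)
    (hdeg : ∀ S, c S ≠ 0 → (S ∩ J).card ≤ d)
    (hbd : ∀ z : I → ℂ, (∀ i, ‖z i‖ = 1) → ‖∑ S, c S * ∏ i ∈ S, z i‖ ≤ 1)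
    (z : I → ℂ) (hz : ∀ i, ‖z i‖ = 1) (u : I → ℤ) (hu : ∀ i, |u i| ≤ 1) :
    ‖∑ j ∈ J, (u j : ℂ) * ∑ S with j ∈ S, c S * ∏ i ∈ S, z i‖ ≤ 2 * d := by
  have h1 : ∑ j ∈ J, (u j : ℂ) * ∑ S with j ∈ S, c S * ∏ i ∈ S, z i =
      ∑ S : Finset I, (c S * ∏ i ∈ S, z i) * ((∑ j ∈ S ∩ J, u j : ℤ) : ℂ) := by
    have h2 : ∀ j ∈ J, (u j : ℂ) * ∑ S with j ∈ S, c S * ∏ i ∈ S, z i =
        ∑ S : Finset I, if j ∈ S then (c S * ∏ i ∈ S, z i) * (u j : ℂ) else 0 := by
      intro j _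
      rw [← sum_filter, mul_sum]
      exact sum_congr rfl fun S _ => by ring
    rw [sum_congr rfl h2, sum_comm]
    refine sum_congr rfl fun S _ => ?_
    rw [← sum_filter, ← mul_sum]
    congr 1
    push_cast
    refine sum_congr ?_ fun _ _ => rfl
    ext j; simp [and_comm]
  rw [h1]
  apply bern_one
  · intro S _ hS
    have hcS : c S ≠ 0 := fun h => hS (by simp [h])
    calc |∑ j ∈ S ∩ J, u j| ≤ ∑ j ∈ S ∩ J, |u j| := abs_sum_le_sum_abs _ _
      _ ≤ ∑ j ∈ S ∩ J, 1 := sum_le_sum fun j _ => hu j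
      _ = ((S ∩ J).card : ℤ) := by simp
      _ ≤ d := by exact_mod_cast hdeg S hcS
  · intro ζ hζ
    have hζ0 : ζ ≠ 0 := by intro h; rw [h] at hζ; simp at hζ
    have := hbd (fun i => if i ∈ J then z i * ζ ^ (u i) else z i) (by
      intro i
      split_ifs
      · rw [norm_mul, hz, norm_zpow, hζ, one_zpow, one_mul]
      · exact hz i)
    convert this using 2
    refine sum_congr rfl fun S _ => ?_
    rw [mul_assoc]
    congr 1
    have h3 : ∀ i ∈ S, (if i ∈ J then z i * ζ ^ (u i) else z i) =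
        z i * (if i ∈ J then ζ ^ (u i) else 1) := by
      intro i _; split_ifs <;> simp
    rw [prod_congr rfl h3, prod_mul_distrib]
    congr 1
    rw [← prod_filter, filter_mem_eq_inter]
    induction (S ∩ J) using Finset.induction_on with
    | empty => simp
    | insert a t ha ih => rw [sum_insert ha, prod_insert ha, zpow_add₀ hζ0, ih]

/-- Bernstein's inequality for polynomials bounded on the torus. -/
theorem bern (c : Finset I → ℂ) (J : Finset I) (d : ℕ)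
    (hdeg : ∀ S, c S ≠ 0 → (S ∩ J).card ≤ d)
    (hbd : ∀ z : I → ℂ, (∀ i, ‖z i‖ = 1) → ‖∑ S, c S * ∏ i ∈ S, z i‖ ≤ 1)
    (z : I → ℂ) (hz : ∀ i, ‖z i‖ = 1) :
    ∑ j ∈ J, ‖∑ S with j ∈ S, c S * ∏ i ∈ S, z i‖ ≤ 4 * d := by
  set w : I → ℂ := fun j => ∑ S with j ∈ S, c S * ∏ i ∈ S, z i with hw
  have hre : ∑ j ∈ J, |(w j).re| ≤ 2 * d := by
    have h := bern_signed c J d hdeg hbd z hz (fun j => if 0 ≤ (w j).re then 1 else -1)
      (fun j => by split_ifs <;> simp)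
    refine le_trans ?_ h
    refine le_trans (le_of_eq ?_) (Complex.re_le_norm _)
    rw [Complex.re_sum]
    refine sum_congr rfl fun j _ => ?_
    change _ = (((if 0 ≤ (w j).re then (1 : ℤ) else -1 : ℤ) : ℂ) * w j).re
    split_ifs with h0
    · rw [abs_of_nonneg h0]; simp
    · rw [abs_of_neg (not_le.1 h0)]; simp
  have him : ∑ j ∈ J, |(w j).im| ≤ 2 * d := by
    have h := bern_signed c J d hdeg hbd z hz (fun j => if 0 ≤ (w j).im then 1 else -1)
      (fun j => by split_ifs <;> simp)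
    refine le_trans ?_ h
    refine le_trans (le_of_eq ?_) (Complex.im_le_norm _)
    rw [Complex.im_sum]
    refine sum_congr rfl fun j _ => ?_
    change _ = (((if 0 ≤ (w j).im then (1 : ℤ) else -1 : ℤ) : ℂ) * w j).im
    split_ifs with h0
    · rw [abs_of_nonneg h0]; simp
    · rw [abs_of_neg (not_le.1 h0)]; simp
  calc ∑ j ∈ J, ‖w j‖ ≤ ∑ j ∈ J, (|(w j).re| + |(w j).im|) :=
        sum_le_sum fun j _ => Complex.norm_le_abs_re_add_abs_im _
    _ = ∑ j ∈ J, |(w j).re| + ∑ j ∈ J, |(w j).im| := sum_add_distrib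
    _ ≤ 4 * d := by linarith

end Pool.Agent.TAA
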