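import Pool.Agent.Lib_helper6.TAA.Bern

/-!
# Bernstein's inequality with the sharp constant, real part version

`bern_im`: if `|Re sum_S c_S z^S| <= 1` on the torus and `|S ∩ J| <= d` on the support, then
`sum_{j in J} |Im sum_{S contains j} c_S z^S| <= d` at every point of the torus.
The proof is the interpolation formula of M. Riesz at the points `zeta^(2d) = -1`.
-/

set_option linter.unusedVariables false

open Finset Complex

namespace Pool.Agent.TAA

section riesz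

variable {d : ℕ} {ω : ℂ}

/-- the nodes -/
noncomputable def rzN (ω : ℂ) (m : ℕ) : ℂ := ω ^ (2 * m + 1)

/-- the sums `A(j)` -/
noncomputable def rzA (d : ℕ) (ω : ℂ) (j : ℤ) : ℂ :=
  ∑ m ∈ range (2 * d), (rzN ω m) ^ j / (2 - rzN ω m - (rzN ω m)⁻¹)

theorem rz_ne_zero (hd : 0 < d) (hω : IsPrimitiveRoot ω (4 * d)) (m : ℕ) : rzN ω m ≠ 0 :=
  pow_ne_zero _ (hω.ne_zero (by omega))

theorem rz_norm (hd : 0 < d) (hω : IsPrimitiveRoot ω (4 * d)) (m : ℕ) : ‖rzN ω m‖ = 1 := by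
  rw [rzN, norm_pow, hω.norm'_eq_one (by omega), one_pow]

theorem rz_ne_one (hd : 0 < d) (hω : IsPrimitiveRoot ω (4 * d)) (m : ℕ) : rzN ω m ≠ 1 := by
  intro h
  have h1 := (hω.pow_eq_one_iff_dvd (2 * m + 1)).1 h
  obtain ⟨c, hc⟩ := h1
  have : 2 * m + 1 = 2 * (2 * d * c) := by rw [hc]; ring
  omega

theorem rz_den (hd : 0 < d) (hω : IsPrimitiveRoot ω (4 * d)) (m : ℕ) :
    2 - rzN ω m - (rzN ω m)⁻¹ = ((‖1 - rzN ω m‖ ^ 2 : ℝ) : ℂ) := by
  have h1 := rz_norm hd hω m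
  have hinv : (starRingEnd ℂ) (rzN ω m) = (rzN ω m)⁻¹ := by
    rw [Complex.inv_def, Complex.normSq_eq_norm_sq, h1]; simp
  rw [Complex.ofReal_pow, ← Complex.mul_conj', map_sub, map_one, hinv]
  have := mul_inv_cancel₀ (rz_ne_zero hd hω m)
  linear_combination -this

theorem rz_den_pos (hd : 0 < d) (hω : IsPrimitiveRoot ω (4 * d)) (m : ℕ) :
    0 < ‖1 - rzN ω m‖ ^ 2 := by
  have : 1 - rzN ω m ≠ 0 := sub_ne_zero.2 (rz_ne_one hd hω m).symm
  positivity

theorem rz_den_ne (hd : 0 < d) (hω : IsPrimitiveRoot ω (4 * d)) (m : ℕ) :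
    2 - rzN ω m - (rzN ω m)⁻¹ ≠ 0 := by
  rw [rz_den hd hω m]
  exact_mod_cast (rz_den_pos hd hω m).ne'

theorem rz_half (hd : 0 < d) (hω : IsPrimitiveRoot ω (4 * d)) : ω ^ (2 * d) = -1 := by
  have h1 : (ω ^ (2 * d)) ^ 2 = 1 := by
    rw [← pow_mul, show 2 * d * 2 = 4 * d by ring]; exact hω.pow_eq_one
  have h2 : (ω ^ (2 * d) - 1) * (ω ^ (2 * d) + 1) = 0 := by linear_combination h1
  rcases mul_eq_zero.1 h2 with h | h
  · exfalso
    have := (hω.pow_eq_one_iff_dvd (2 * d)).1 (sub_eq_zero.1 h)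
    have := Nat.le_of_dvd (by omega) this
    omega
  · exact eq_neg_of_add_eq_zero_left h

theorem rz_pow (hd : 0 < d) (hω : IsPrimitiveRoot ω (4 * d)) (m : ℕ) :
    (rzN ω m) ^ (2 * d) = -1 := by
  rw [rzN, ← pow_mul, mul_comm, pow_mul, rz_half hd hω]
  exact Odd.neg_one_pow ⟨m, by ring⟩

theorem rz_sum (hd : 0 < d) (hω : IsPrimitiveRoot ω (4 * d)) (j : ℕ) (h0 : 0 < j)
    (hj : j < 2 * d) : ∑ m ∈ range (2 * d), (rzN ω m) ^ (j : ℤ) = 0 := by
  have hx : (ω ^ j) ^ 2 ≠ 1 := by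
    rw [← pow_mul]
    intro h
    have := (hω.pow_eq_one_iff_dvd (j * 2)).1 h
    have := Nat.le_of_dvd (by omega) this
    omega
  have h1 : ∀ m ∈ range (2 * d), (rzN ω m) ^ (j : ℤ) = ω ^ j * ((ω ^ j) ^ 2) ^ m := by
    intro m _
    rw [rzN, zpow_natCast, ← pow_mul, ← pow_mul, ← pow_mul, ← pow_add]
    congr 1; ring
  rw [sum_congr rfl h1, ← mul_sum, geom_sum_eq hx]
  have : ((ω ^ j) ^ 2) ^ (2 * d) = 1 := by
    rw [← pow_mul, ← pow_mul, show j * (2 * (2 * d)) = 4 * d * j by ring, pow_mul, hω.pow_eq_one,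
      one_pow]
  rw [this]; simp

theorem rz_rec (hd : 0 < d) (hω : IsPrimitiveRoot ω (4 * d)) (j : ℤ) :
    2 * rzA d ω j - rzA d ω (j + 1) - rzA d ω (j - 1) = ∑ m ∈ range (2 * d), (rzN ω m) ^ j := by
  simp only [rzA]
  rw [mul_sum, ← sum_sub_distrib, ← sum_sub_distrib]
  refine sum_congr rfl fun m _ => ?_
  have h0 := rz_ne_zero hd hω m
  have h1 := rz_den_ne hd hω m
  rw [zpow_add_one₀ h0, zpow_sub_one₀ h0]
  have h2 : 2 * ((rzN ω m) ^ j / (2 - rzN ω m - (rzN ω m)⁻¹)) -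
      (rzN ω m) ^ j * rzN ω m / (2 - rzN ω m - (rzN ω m)⁻¹) -
      (rzN ω m) ^ j * (rzN ω m)⁻¹ / (2 - rzN ω m - (rzN ω m)⁻¹) =
      (rzN ω m) ^ j * ((2 - rzN ω m - (rzN ω m)⁻¹) / (2 - rzN ω m - (rzN ω m)⁻¹)) := by ring
  rw [h2, div_self h1, mul_one]

theorem rz_neg (hd : 0 < d) (hω : IsPrimitiveRoot ω (4 * d)) (j : ℤ) :
    rzA d ω (-j) = rzA d ω j := by
  simp only [rzA]
  rw [← sum_range_reflect]
  refine sum_congr rfl fun m hm => ?_
  rw [mem_range] at hm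
  have h0 := rz_ne_zero hd hω m
  have h1 : rzN ω (2 * d - 1 - m) = (rzN ω m)⁻¹ := by
    apply eq_inv_of_mul_eq_one_left
    rw [rzN, rzN, ← pow_add]
    rw [show 2 * (2 * d - 1 - m) + 1 + (2 * m + 1) = 4 * d by omega]
    exact hω.pow_eq_one
  rw [h1, inv_zpow', neg_neg, inv_inv]
  congr 1; ring

theorem rz_shift (hd : 0 < d) (hω : IsPrimitiveRoot ω (4 * d)) (j : ℤ) :
    rzA d ω (j + 2 * d) = -rzA d ω j := by
  simp only [rzA]
  rw [← sum_neg_distrib]
  refine sum_congr rfl fun m _ => ?_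
  have h0 := rz_ne_zero hd hω m
  have h2 : (rzN ω m) ^ (2 * (d : ℤ)) = -1 := by
    have := rz_pow hd hω m
    rw [← zpow_natCast] at this
    push_cast at this
    exact this
  rw [zpow_add₀ h0, h2]; ring

theorem rz_odd (hd : 0 < d) (hω : IsPrimitiveRoot ω (4 * d)) (k : ℤ) :
    rzA d ω (-k + d) = -rzA d ω (k + d) := by
  have h1 := rz_neg hd hω (k - d)
  rw [show -(k - (d : ℤ)) = -k + d by ring] at h1
  have h2 := rz_shift hd hω (k - d)
  rw [show k - (d : ℤ) + 2 * d = k + d by ring] at h2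
  rw [h1, h2]; ring

theorem rz_lin (hd : 0 < d) (hω : IsPrimitiveRoot ω (4 * d)) :
    ∀ k : ℕ, k ≤ d → rzA d ω (k + d) = k * rzA d ω (1 + d) ∧
      (k + 1 ≤ d → rzA d ω (k + 1 + d) = (k + 1) * rzA d ω (1 + d)) := by
  intro k
  induction k with
  | zero =>
    intro _
    have h := rz_odd hd hω 0
    rw [neg_zero] at h
    refine ⟨?_, fun _ => by simp⟩
    have : rzA d ω (0 + d) = 0 := by linear_combination h / 2
    simpa using this
  | succ k ih =>
    intro hk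
    obtain ⟨h1, h2⟩ := ih (by omega)
    have h2' := h2 hk
    refine ⟨by push_cast; exact h2', fun hk2 => ?_⟩
    have h3 := rz_rec hd hω ((k : ℤ) + 1 + d)
    have h4 := rz_sum hd hω (k + 1 + d) (by omega) (by omega)
    push_cast at h4
    rw [h4] at h3
    rw [show (k : ℤ) + 1 + d + 1 = ((k + 1 : ℕ) : ℤ) + 1 + d by push_cast; ring,
      show (k : ℤ) + 1 + d - 1 = k + d by ring, h1, h2'] at h3
    push_cast at h3 ⊢
    linear_combination -h3

theorem rz_slope (hd : 0 < d) (hω : IsPrimitiveRoot ω (4 * d)) :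
    rzA d ω (1 + d) = -(d : ℂ) := by
  obtain ⟨e, rfl⟩ : ∃ e, d = e + 1 := ⟨d - 1, by omega⟩
  set d := e + 1 with hdd
  have h1 := (rz_lin hd hω d le_rfl).1
  have h2 := (rz_lin hd hω e (by omega)).1
  have h3 := rz_rec hd hω ((d : ℤ) + d)
  have h4 : ∑ m ∈ range (2 * d), (rzN ω m) ^ ((d : ℤ) + d) = -(2 * (d : ℂ)) := by
    have : ∀ m ∈ range (2 * d), (rzN ω m) ^ ((d : ℤ) + d) = -1 := by
      intro m _
      have := rz_pow hd hω m
      rw [← zpow_natCast] at this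
      push_cast at this
      rw [← two_mul]; exact this
    rw [sum_congr rfl this]; simp
  rw [h4] at h3
  have h5 := rz_odd hd hω (-(e : ℤ))
  have h6 := rz_shift hd hω (1 : ℤ)
  rw [show (d : ℤ) + d + 1 = 1 + 2 * d by ring, h6,
    show (d : ℤ) + d - 1 = e + d by rw [hdd]; push_cast; ring] at h3
  rw [neg_neg, show -(e : ℤ) + d = 1 by rw [hdd]; push_cast; ring] at h5
  have hdc : (d : ℂ) = e + 1 := by rw [hdd]; push_cast; ring
  rw [hdc] at h1 h3 ⊢
  linear_combination (1 / 2) * h3 - h1 - (1 / 2) * h5 + h2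

theorem rz_val (hd : 0 < d) (hω : IsPrimitiveRoot ω (4 * d)) (k : ℤ) (hk : |k| ≤ d) :
    rzA d ω (k + d) = -(d : ℂ) * k := by
  have key : ∀ k : ℕ, k ≤ d → rzA d ω (k + d) = -(d : ℂ) * k := by
    intro k hk
    rw [(rz_lin hd hω k hk).1, rz_slope hd hω]; ring
  rcases le_or_gt 0 k with h | h
  · obtain ⟨k, rfl⟩ := Int.eq_ofNat_of_zero_le h
    rw [abs_of_nonneg h] at hk
    have := key k (by exact_mod_cast hk)
    simpa using this
  · obtain ⟨k', hk'⟩ := Int.eq_ofNat_of_zero_le (a := -k) (by omega)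
    obtain rfl : k = -(k' : ℤ) := by omega
    rw [abs_neg, abs_of_nonneg (by positivity)] at hk
    have := key k' (by exact_mod_cast hk)
    rw [rz_odd hd hω, this]
    push_cast; ring

/-- the coefficients of the interpolation formula (real numbers) -/
noncomputable def rzC (d : ℕ) (ω : ℂ) (m : ℕ) : ℂ :=
  -I * (rzN ω m) ^ d / (d * (2 - rzN ω m - (rzN ω m)⁻¹))

theorem rz_interp (hd : 0 < d) (hω : IsPrimitiveRoot ω (4 * d)) (k : ℤ) (hk : |k| ≤ d) :
    ∑ m ∈ range (2 * d), rzC d ω m * (rzN ω m) ^ k = I * k := by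
  have hdc : (d : ℂ) ≠ 0 := by exact_mod_cast hd.ne'
  have h1 : ∑ m ∈ range (2 * d), rzC d ω m * (rzN ω m) ^ k = -I / d * rzA d ω (k + d) := by
    rw [rzA, mul_sum]
    refine sum_congr rfl fun m _ => ?_
    have h0 := rz_ne_zero hd hω m
    have h2 := rz_den_ne hd hω m
    rw [rzC, zpow_add₀ h0, zpow_natCast]
    field_simp
  rw [h1, rz_val hd hω k hk]
  field_simp

theorem rz_norm_sum (hd : 0 < d) (hω : IsPrimitiveRoot ω (4 * d)) :
    ∑ m ∈ range (2 * d), ‖rzC d ω m‖ = d := by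
  have hdc : (d : ℂ) ≠ 0 := by exact_mod_cast hd.ne'
  have h1 : ∀ m ∈ range (2 * d), ((‖rzC d ω m‖ : ℝ) : ℂ) =
      -(1 / (d : ℂ)) * ((rzN ω m) ^ ((d : ℤ) + d) / (2 - rzN ω m - (rzN ω m)⁻¹)) := by
    intro m _
    have h2 := rz_den hd hω m
    have h3 := rz_den_pos hd hω m
    have h4 : (rzN ω m) ^ ((d : ℤ) + d) = -1 := by
      have := rz_pow hd hω m
      rw [← zpow_natCast] at this
      push_cast at this
      rw [← two_mul]; exact this
    rw [h4, rzC, h2]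
    rw [norm_div, norm_mul, norm_mul, norm_pow, rz_norm hd hω, one_pow, norm_neg, Complex.norm_I,
      Complex.norm_natCast, Complex.norm_real, Real.norm_of_nonneg h3.le]
    push_cast
    have h5 : ((‖1 - rzN ω m‖ : ℝ) : ℂ) ≠ 0 := by
      intro h
      have : ‖1 - rzN ω m‖ = 0 := by exact_mod_cast h
      rw [this] at h3; norm_num at h3
    field_simp
  have h2 : ((∑ m ∈ range (2 * d), ‖rzC d ω m‖ : ℝ) : ℂ) = ((d : ℝ) : ℂ) := by
    rw [Complex.ofReal_sum, sum_congr rfl h1, ← mul_sum]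
    have h3 := rz_val hd hω (d : ℤ) (by rw [abs_of_nonneg (by positivity)])
    rw [rzA] at h3
    rw [h3]
    push_cast
    field_simp
  exact_mod_cast h2

theorem rz_real (hd : 0 < d) (hω : IsPrimitiveRoot ω (4 * d)) (m : ℕ) :
    (rzC d ω m).im = 0 := by
  have h1 : ((rzN ω m) ^ d) ^ 2 = -1 := by
    rw [← pow_mul, mul_comm]; exact rz_pow hd hω m
  have h2 : ((rzN ω m) ^ d - I) * ((rzN ω m) ^ d + I) = 0 := by
    have := Complex.I_sq
    linear_combination h1 - this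
  have h3 := rz_den hd hω m
  rcases mul_eq_zero.1 h2 with h | h
  · have h4 : (rzN ω m) ^ d = I := sub_eq_zero.1 h
    have h5 : rzC d ω m = ((1 / (d * ‖1 - rzN ω m‖ ^ 2) : ℝ) : ℂ) := by
      rw [rzC, h4, h3]
      push_cast
      rw [show -I * I = 1 by rw [neg_mul, Complex.I_mul_I, neg_neg]]
    rw [h5, Complex.ofReal_im]
  · have h4 : (rzN ω m) ^ d = -I := eq_neg_of_add_eq_zero_left h
    have h5 : rzC d ω m = ((-1 / (d * ‖1 - rzN ω m‖ ^ 2) : ℝ) : ℂ) := by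
      rw [rzC, h4, h3]
      push_cast
      rw [show -I * -I = -1 by rw [neg_mul_neg, Complex.I_mul_I]]
    rw [h5, Complex.ofReal_im]

end riesz

/-- Bernstein's inequality at `1`, real part version with the sharp constant. -/
theorem bern_im_one {ι : Type*} (s : Finset ι) (b : ι → ℂ) (k : ι → ℤ) (d : ℕ)
    (hk : ∀ i ∈ s, b i ≠ 0 → |k i| ≤ d)
    (hbd : ∀ ζ : ℂ, ‖ζ‖ = 1 → |(∑ i ∈ s, b i * ζ ^ (k i)).re| ≤ 1) :
    |(∑ i ∈ s, b i * k i).im| ≤ d := by
  rcases Nat.eq_zero_or_pos d with h0 | hd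
  · subst h0
    have : ∑ i ∈ s, b i * k i = 0 := by
      apply sum_eq_zero
      intro i hi
      by_cases hb : b i = 0
      · simp [hb]
      · have := hk i hi hb
        have : k i = 0 := by
          rw [Nat.cast_zero] at this
          exact abs_eq_zero.1 (le_antisymm this (abs_nonneg _))
        simp [this]
    rw [this]; simp
  have hω := Complex.isPrimitiveRoot_exp (4 * d) (by omega)
  set ω := Complex.exp (2 * Real.pi * Complex.I / (4 * d : ℕ)) with hωdef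
  have e1 : I * ∑ i ∈ s, b i * k i =
      ∑ m ∈ range (2 * d), rzC d ω m * ∑ i ∈ s, b i * (rzN ω m) ^ (k i) := by
    simp_rw [mul_sum]
    rw [sum_comm]
    refine sum_congr rfl fun i hi => ?_
    by_cases hb : b i = 0
    · simp [hb]
    · have := rz_interp hd hω (k i) (hk i hi hb)
      rw [show I * (b i * (k i : ℂ)) = b i * (I * k i) by ring, ← this, mul_sum]
      exact sum_congr rfl fun m _ => by ring
  have e2 : (∑ i ∈ s, b i * k i).im = -(I * ∑ i ∈ s, b i * k i).re := by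
    simp [Complex.mul_re]
  rw [e2, abs_neg, e1, Complex.re_sum]
  calc |∑ m ∈ range (2 * d), (rzC d ω m * ∑ i ∈ s, b i * (rzN ω m) ^ (k i)).re|
      ≤ ∑ m ∈ range (2 * d), |(rzC d ω m * ∑ i ∈ s, b i * (rzN ω m) ^ (k i)).re| :=
        abs_sum_le_sum_abs _ _
    _ ≤ ∑ m ∈ range (2 * d), ‖rzC d ω m‖ := by
        refine sum_le_sum fun m _ => ?_
        have h1 := rz_real hd hω m
        rw [Complex.mul_re, h1, zero_mul, sub_zero, abs_mul]
        calc |(rzC d ω m).re| * |(∑ i ∈ s, b i * (rzN ω m) ^ (k i)).re|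
            ≤ |(rzC d ω m).re| * 1 :=
              mul_le_mul_of_nonneg_left (hbd _ (rz_norm hd hω m)) (abs_nonneg _)
          _ ≤ ‖rzC d ω m‖ := by rw [mul_one]; exact Complex.abs_re_le_norm _
    _ = d := rz_norm_sum hd hω

variable {I : Type*} [Fintype I] [DecidableEq I]

/-- The signed version. -/
theorem bern_im_signed (c : Finset I → ℂ) (J : Finset I) (d : ℕ)
    (hdeg : ∀ S, c S ≠ 0 → (S ∩ J).card ≤ d)
    (hbd : ∀ z : I → ℂ, (∀ i, ‖z i‖ = 1) → |(∑ S, c S * ∏ i ∈ S, z i).re| ≤ 1)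
    (z : I → ℂ) (hz : ∀ i, ‖z i‖ = 1) (u : I → ℤ) (hu : ∀ i, |u i| ≤ 1) :
    |(∑ j ∈ J, (u j : ℂ) * ∑ S with j ∈ S, c S * ∏ i ∈ S, z i).im| ≤ d := by
  have h1 : ∑ j ∈ J, (u j : ℂ) * ∑ S with j ∈ S, c S * ∏ i ∈ S, z i =
      ∑ S : Finset I, (c S * ∏ i ∈ S, z i) * ((∑ j ∈ S ∩ J, u j : ℤ) : ℂ) := by
    have h2 : ∀ j ∈ J, (u j : ℂ) * ∑ S with j ∈ S, c S * ∏ i ∈ S, z i =
        ∑ S : Finset I, if j ∈ S then (c S * ∏ i ∈ S, z i) * (u j : ℂ) else 0 := by
      intro j _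
      rw [← sum_filter, mul_sum]
      exact sum_congr rfl fun S _ => by ring
    rw [sum_congr rfl h2, sum_comm]
    refine sum_congr rfl fun S _ => ?_
    rw [← sum_filter, ← mul_sum]
    congr 1
    push_cast
    refine sum_congr ?_ fun _ _ => rfl
    ext j; simp [and_comm]
  rw [h1]
  apply bern_im_one
  · intro S _ hS
    have hcS : c S ≠ 0 := fun h => hS (by simp [h])
    calc |∑ j ∈ S ∩ J, u j| ≤ ∑ j ∈ S ∩ J, |u j| := abs_sum_le_sum_abs _ _
      _ ≤ ∑ j ∈ S ∩ J, 1 := sum_le_sum fun j _ => hu j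
      _ = ((S ∩ J).card : ℤ) := by simp
      _ ≤ d := by exact_mod_cast hdeg S hcS
  · intro ζ hζ
    have hζ0 : ζ ≠ 0 := by intro h; rw [h] at hζ; simp at hζ
    have := hbd (fun i => if i ∈ J then z i * ζ ^ (u i) else z i) (by
      intro i
      split_ifs
      · rw [norm_mul, hz, norm_zpow, hζ, one_zpow, one_mul]
      · exact hz i)
    convert this using 3
    refine sum_congr rfl fun S _ => ?_
    rw [mul_assoc]
    congr 1
    have h3 : ∀ i ∈ S, (if i ∈ J then z i * ζ ^ (u i) else z i) =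
        z i * (if i ∈ J then ζ ^ (u i) else 1) := by
      intro i _; split_ifs <;> simp
    rw [prod_congr rfl h3, prod_mul_distrib]
    congr 1
    rw [← prod_filter, filter_mem_eq_inter]
    induction (S ∩ J) using Finset.induction_on with
    | empty => simp
    | insert a t ha ih => rw [sum_insert ha, prod_insert ha, zpow_add₀ hζ0, ih]

/-- Bernstein's inequality for polynomials whose real part is bounded on the torus. -/
theorem bern_im (c : Finset I → ℂ) (J : Finset I) (d : ℕ)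
    (hdeg : ∀ S, c S ≠ 0 → (S ∩ J).card ≤ d)
    (hbd : ∀ z : I → ℂ, (∀ i, ‖z i‖ = 1) → |(∑ S, c S * ∏ i ∈ S, z i).re| ≤ 1)
    (z : I → ℂ) (hz : ∀ i, ‖z i‖ = 1) :
    ∑ j ∈ J, |(∑ S with j ∈ S, c S * ∏ i ∈ S, z i).im| ≤ d := by
  set w : I → ℂ := fun j => ∑ S with j ∈ S, c S * ∏ i ∈ S, z i with hw
  have h := bern_im_signed c J d hdeg hbd z hz (fun j => if 0 ≤ (w j).im then 1 else -1)
    (fun j => by split_ifs <;> simp)
  refine le_trans ?_ h
  refine le_trans (le_of_eq ?_) (le_abs_self _)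
  rw [Complex.im_sum]
  refine sum_congr rfl fun j _ => ?_
  change _ = (((if 0 ≤ (w j).im then (1 : ℤ) else -1 : ℤ) : ℂ) * w j).im
  split_ifs with h0
  · rw [abs_of_nonneg h0]; simp
  · rw [abs_of_neg (not_le.1 h0)]; simp

end Pool.Agent.TAA
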